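import Pool.Agent.Helper11.PK.Defs

/-! # EXTP: homomorphisms of subgroups of finite p-power index (project PK) -/

set_option autoImplicit false

namespace Pool.Agent.Helper8.PK

universe u v w x

open Pool.Agent.Helper28.Para Pool.Agent.Helper11.PC Pool.Agent.Helper11.PK

theorem star {L : Type x} [Group L] (p : ℕ) [Fact p.Prime] {P : Type w} [Group P] [Finite P]
    (hP : IsPGroup p P) (π : L →* P) (L₀ : Subgroup L) (hL₀ : π.ker ≤ L₀) {E : Type u} [Group E]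
    [Finite E] (hE : IsPGroup p E) (θ : L₀ →* E) :
    ∃ n, lcs L n ≤ L₀ ∧ ∀ w : L₀, (w : L) ∈ lcs L n → θ w = 1 := by
  have hk : π.ker.FiniteIndex := inferInstance
  have hL₀i : L₀.FiniteIndex := Subgroup.finiteIndex_of_le hL₀
  set M' : Subgroup L := θ.ker.map L₀.subtype with hM'
  have hM'i : M'.FiniteIndex := by
    refine ⟨?_⟩
    have h1 : M' ≤ L₀ := Subgroup.map_subtype_le _
    rw [← Subgroup.relIndex_mul_index h1]
    apply mul_ne_zero _ hL₀i.index_ne_zero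
    have h2 : M'.subgroupOf L₀ = θ.ker :=
      Subgroup.comap_map_eq_self_of_injective (Subgroup.subtype_injective L₀) _
    show (M'.subgroupOf L₀).index ≠ 0
    rw [h2]
    have : θ.ker.FiniteIndex := inferInstance
    exact this.index_ne_zero
  set M : Subgroup L := π.ker ⊓ M' with hM
  have hMi : M.FiniteIndex := inferInstance
  set K : Subgroup L := M.normalCore with hK
  have hKi : K.FiniteIndex := inferInstance
  have hexp : ∃ e : ℕ, ∀ z : E, z ^ p ^ e = 1 := by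
    obtain ⟨e, he⟩ := IsPGroup.iff_card.mp hE
    refine ⟨e, fun z => ?_⟩
    rw [← he]
    exact pow_card_eq_one'
  obtain ⟨e, he⟩ := hexp
  have hpg : IsPGroup p (L ⧸ K) := by
    intro y
    obtain ⟨y, rfl⟩ := QuotientGroup.mk_surjective y
    obtain ⟨a, ha⟩ := hP (π y)
    refine ⟨a + e, ?_⟩
    have h1 : y ^ p ^ a ∈ π.ker := by
      rw [MonoidHom.mem_ker, map_pow, ha]
    have h2 : (y ^ p ^ a) ^ p ^ e ∈ K := by
      rw [hK]
      intro t
      rw [← conj_pow]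
      have h3 : t * y ^ p ^ a * t⁻¹ ∈ π.ker := Subgroup.Normal.conj_mem inferInstance _ h1 t
      refine ⟨Subgroup.pow_mem _ h3 _, ?_⟩
      refine ⟨⟨t * y ^ p ^ a * t⁻¹, hL₀ h3⟩ ^ p ^ e, ?_, rfl⟩
      show _ ∈ θ.ker
      rw [MonoidHom.mem_ker, map_pow, he]
    rw [← QuotientGroup.mk_pow, pow_add, pow_mul]
    exact (QuotientGroup.eq_one_iff _).mpr h2
  have hfin : Finite (L ⧸ K) := inferInstance
  have hnil := hpg.isNilpotent
  obtain ⟨n, hn⟩ := Subgroup.nilpotent_iff_lowerCentralSeries.mp hnil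
  have hle : lcs L n ≤ K := by
    intro g hg
    have h1 : (QuotientGroup.mk' K) g ∈ ((⊤ : Subgroup L).lowerCentralSeries n).map
        (QuotientGroup.mk' K) := ⟨g, hg, rfl⟩
    rw [Subgroup.map_lowerCentralSeries] at h1
    have h2 := Subgroup.lowerCentralSeries_mono n (le_top : (⊤ : Subgroup L).map
      (QuotientGroup.mk' K) ≤ ⊤) h1
    dsimp only at h2
    rw [hn, Subgroup.mem_bot] at h2
    exact (QuotientGroup.eq_one_iff _).mp h2
  have hKM : K ≤ M := M.normalCore_le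
  refine ⟨n, fun g hg => hL₀ (hKM (hle hg)).1, ?_⟩
  intro w hw
  obtain ⟨w', hw', he'⟩ := (hKM (hle hw)).2
  have h3 : w' = w := Subtype.ext he'
  rw [← h3]
  exact hw'

theorem extp {X : Type v} {G : Type u} [Group G] (s : FreeGroup X →* G)
    (hs1 : ∀ n w, s w ∈ lcs G n → w ∈ lcs (FreeGroup X) n)
    (hs2 : ∀ n g, ∃ w, (s w)⁻¹ * g ∈ lcs G n)
    (p : ℕ) [Fact p.Prime] {P : Type w} [Group P] [Finite P] (hP : IsPGroup p P) (π : G →* P)
    (G0 : Subgroup G) (hG0 : π.ker ≤ G0) {E : Type u} [Group E] [Finite E] (hE : IsPGroup p E) :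
    (∀ ψ : (G0.comap s) →* E, ∃ ψ' : G0 →* E, ∀ w : (G0.comap s), ψ' ⟨s w, w.2⟩ = ψ w) ∧
    (∀ ψ₁ ψ₂ : G0 →* E, (∀ w : (G0.comap s), ψ₁ ⟨s w, w.2⟩ = ψ₂ ⟨s w, w.2⟩) → ψ₁ = ψ₂) := by
  have hw : ∀ n, lcs G n ≤ G0 → ∀ g ∈ G0, ∃ w : (G0.comap s), (s w)⁻¹ * g ∈ lcs G n := by
    intro n hn g hg
    obtain ⟨w, hw⟩ := hs2 n g
    refine ⟨⟨w, ?_⟩, hw⟩
    show s w ∈ G0
    have h1 : s w = g * ((s w)⁻¹ * g)⁻¹ := by group
    rw [h1]
    exact G0.mul_mem hg (G0.inv_mem (hn hw))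
  constructor
  · intro ψ
    have hker : (π.comp s).ker ≤ G0.comap s := by
      intro w hw
      exact hG0 hw
    obtain ⟨n1, hn1, hψ⟩ := star p hP (π.comp s) (G0.comap s) hker hE ψ
    obtain ⟨n2, hn2, -⟩ := star p hP π G0 hG0 hE (1 : G0 →* E)
    set n := max n1 n2 with hn
    have hanti := (⊤ : Subgroup G).lowerCentralSeries_antitone (le_max_right n1 n2)
    have hanti1 := (⊤ : Subgroup (FreeGroup X)).lowerCentralSeries_antitone (le_max_left n1 n2)
    have hnG : lcs G n ≤ G0 := fun g hg => hn2 (hanti hg)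
    choose W hW using fun g : G0 => hw n hnG g g.2
    have huniq : ∀ (g : G) (w w' : (G0.comap s)), (s w)⁻¹ * g ∈ lcs G n →
        (s w')⁻¹ * g ∈ lcs G n → ψ w = ψ w' := by
      intro g w w' h h'
      have h1 : s ((w : FreeGroup X)⁻¹ * w') ∈ lcs G n := by
        have h2 : s ((w : FreeGroup X)⁻¹ * w') = ((s w)⁻¹ * g) * ((s w')⁻¹ * g)⁻¹ := by
          rw [map_mul, map_inv]; group
        rw [h2]
        exact Subgroup.mul_mem _ h (Subgroup.inv_mem _ h')
      have h3 := hψ (w⁻¹ * w') (hanti1 (hs1 n _ h1))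
      rw [map_mul, map_inv, inv_mul_eq_one] at h3
      exact h3
    have hmul : ∀ g h : G0, ψ (W (g * h)) = ψ (W g) * ψ (W h) := by
      intro g h
      rw [← map_mul]
      apply huniq ((g * h : G0) : G) _ _ (hW (g * h))
      have h1 : (s ((W g * W h : G0.comap s) : FreeGroup X))⁻¹ * ((g * h : G0) : G) =
          ((s (W h))⁻¹ * h) * ((h : G)⁻¹ * ((s (W g))⁻¹ * g) * h) := by
        push_cast
        rw [map_mul]
        group
      rw [h1]
      refine Subgroup.mul_mem _ (hW h) ?_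
      have h2 := Subgroup.Normal.conj_mem
        (inferInstance : ((⊤ : Subgroup G).lowerCentralSeries n).Normal) _ (hW g) (h : G)⁻¹
      rw [inv_inv] at h2
      exact h2
    refine ⟨MonoidHom.mk' (fun g => ψ (W g)) hmul, ?_⟩
    intro w
    show ψ (W ⟨s w, w.2⟩) = ψ w
    apply huniq (s w) _ _ (hW ⟨s w, w.2⟩)
    rw [inv_mul_cancel]
    exact Subgroup.one_mem _
  · intro ψ₁ ψ₂ h
    obtain ⟨n1, hn1, hψ1⟩ := star p hP π G0 hG0 hE ψ₁
    obtain ⟨n2, hn2, hψ2⟩ := star p hP π G0 hG0 hE ψ₂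
    have hanti1 := (⊤ : Subgroup G).lowerCentralSeries_antitone (le_max_left n1 n2)
    have hanti2 := (⊤ : Subgroup G).lowerCentralSeries_antitone (le_max_right n1 n2)
    ext g
    obtain ⟨w, hw'⟩ := hw (max n1 n2) (fun g hg => hn2 (hanti2 hg)) g g.2
    have hz : (s w)⁻¹ * (g : G) ∈ G0 := hn2 (hanti2 hw')
    have h1 : g = ⟨s w, w.2⟩ * ⟨(s w)⁻¹ * (g : G), hz⟩ := by
      apply Subtype.ext
      show (g : G) = s w * ((s w)⁻¹ * (g : G))
      rw [mul_inv_cancel_left]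
    have e1 : ψ₁ ⟨(s w)⁻¹ * (g : G), hz⟩ = 1 := hψ1 _ (hanti1 hw')
    have e2 : ψ₂ ⟨(s w)⁻¹ * (g : G), hz⟩ = 1 := hψ2 _ (hanti2 hw')
    rw [h1, map_mul, map_mul, e1, e2, h w]

end Pool.Agent.Helper8.PK
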